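import Pool.Agent.Helper61.EP.Final

namespace Pool.Agent.Results.MP_2eb2cf_co.CondensedWallDisproof

open Pool.Agent.Helper61.EP

/-- There is a connected planar graph `H` that is a minor of the condensed wall of size 19, while
the family of `H`-expansions does not have the edge-Erdős–Pósa property. -/
theorem result : ∃ H : MGraph, H.IsConnected ∧ H.IsPlanar ∧ IsMinor H (condensedWall 19) ∧
    ¬ EdgeErdosPosa (fun G => IsMinor H G) :=
  ⟨HG, HG_connected, HG_planar, HG_minor_wall, HG_not_EP⟩

end Pool.Agent.Results.MP_2eb2cf_co.CondensedWallDisproof
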